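import Pool.Agent.Lib.MP_001d24_al.Dim

/-!
# The dimension of the variety generated by a finite abelian group is 2

The definitions (signatures, terms, varieties, strong Mal'cev conditions, SC-theories, bases,
dimension, the variety generated by a group) are in `Pool.Agent.Lib.MP_001d24_al.Defs`.

Outline of the proof. Let `n` be the exponent of `A`. Let `PAn` be the condition that there is a
ternary term `q` such that for every `c` the operation `a + b := q(a, b, c)` is commutative,
associative and satisfies `a + b + ⋯ + b = a` (`n` times `b`). The main step is that `PAn` is
prime with respect to coproducts of theories with finite nontrivial models: if the disjoint
union of two such theories satisfies `PAn`, then so does one of them. Hence a basis of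
`SC(V(A))` contains a member `σ` implying `PAn`, and a member `σ'` with a nullary symbol, and
`{σ, σ'}` implies everything in `SC(V(A))`.
-/

namespace Pool.Agent.Results.MP_001d24_al.DimAbelian

open Pool.Agent.Lib.MP_001d24_al

universe u

/-- For every finite abelian group `A` the variety generated by `A` has dimension exactly `2`:
every basis of `SC(V(A))` has at most two elements, and there is a basis with two elements. -/
theorem result (A : Type u) [CommGroup A] [Finite A] : dim (groupVariety A) = 2 :=
  dim_groupVariety A

end Pool.Agent.Results.MP_001d24_al.DimAbelian
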